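import Pool.Agent.Helper417.Kl.Final
import Pool.Agent.Helper417.Kl.Metric

/-!
# MP_f8eefe_an, Q1: complements of covering domains in `ℂℙ³` with finite `h₂`

All definitions are in `Pool/Agent/Helper417/Kl/Defs.lean`; two sanity checks for the metric of
`ℂℙ³` are in `Pool/Agent/Helper417/Kl/Metric.lean`.

Idea of the proof. (1) A biholomorphic self-map of `D` maps every line contained in `D` onto a
line (comparison of the Jacobian determinant of a lift with the degree, `line_image`). (2) As
`h₂(Λ) < ∞`, there is a line in `D` through every point of `D`, `Λ` has no interior, and only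
finitely many lines lie in `Λ`. (3) If `γₙ → ∞` in `Γ`, the lines `γₙ(ℓ)` accumulate to lines
contained in `Λ`; as `D/Γ` is compact, these lines cover `Λ`. (4) The space of the lines contained
in `D` is connected, so for `γ` outside a finite subset of `Γ` all lines `γ(ℓ)` of a compact family
are close to the same line of `Λ`; this labels the points of `D` near `Λ` by the lines in `Λ`, the
label is locally constant, and the complement of `Λ` in a small ball is connected. So no two lines
in `Λ` meet.
-/

namespace Pool.Agent.Results.MP_f8eefe_an.Components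

open Set MeasureTheory
open Pool.Agent.Helper417.Kl

/-- Let `D` be a domain in `ℂℙ³` which covers a compact complex threefold, and suppose that the
complement `Λ = Dᶜ` has finite two-dimensional Hausdorff measure. Then `Λ` is the union of finitely
many pairwise disjoint lines, and every connected component of `Λ` is a line. -/
theorem result (D : Set CP3) (hD : IsOpen D) (hDc : IsConnected D)
    (hcov : CoversCompactThreefold D) (hΛ : μH[2] Dᶜ < ⊤) :
    (∃ 𝓛 : Set (Set CP3), 𝓛.Finite ∧ (∀ L ∈ 𝓛, IsLine L) ∧
      (∀ L ∈ 𝓛, ∀ L' ∈ 𝓛, L ≠ L' → Disjoint L L') ∧ Dᶜ = ⋃₀ 𝓛) ∧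
    ∀ p ∈ Dᶜ, IsLine (connectedComponentIn Dᶜ p) :=
  main hD hDc hcov hΛ

end Pool.Agent.Results.MP_f8eefe_an.Components
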